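import Pool.Agent.H15.LU.Targets

/-!
# Module BD: boundedness of the centres
-/

set_option autoImplicit false

namespace Pool.Agent.H15.LU

open Filter Topology Asymptotics Polynomial

/-- substitution `y ↦ r y` in the inner variable -/
noncomputable def bdφ (r : ℂ) : ℂ[X] →+* ℂ[X] := compRingHom (C r * X)

theorem bdφ_coeff (r : ℂ) (p : ℂ[X]) (j : ℕ) : (bdφ r p).coeff j = p.coeff j * r ^ j := by
  simp only [bdφ, coe_compRingHom_apply, comp_C_mul_X_coeff]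

theorem bdφ_SS (r β γ : ℂ) : bdφ r (SS β γ) = SS (β * r) (γ * r ^ 2) := by
  simp only [bdφ, coe_compRingHom_apply, SS, add_comp, mul_comp, C_comp, X_comp, pow_comp,
    map_mul, map_pow]
  ring

theorem bdφ_conv {W : ℕ → ℂ[X][X]} {W' : ℂ[X][X]} (h : Conv W W') {r : ℕ → ℂ} {r' : ℂ}
    (hr : Tendsto r atTop (𝓝 r')) :
    Conv (fun n => (W n).map (bdφ (r n))) (W'.map (bdφ r')) := by
  obtain ⟨⟨D, hD⟩, hW⟩ := h
  refine ⟨⟨D, fun n i j hij => ?_⟩, fun i j => ?_⟩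
  · rw [coeff_map, bdφ_coeff, hD n i j hij, zero_mul]
  · simp only [coeff_map, bdφ_coeff]
    exact (hW i j).mul (hr.pow j)

theorem bd_limit (b g r : ℂ) (h : ∀ k, k < 9 →
    ((taylor (SS b g) (W₀.map (bdφ r))).coeff 0).coeff k = 0) :
    b = 0 ∧ g ^ 4 = 4 * r ^ 6 * g := by
  have e1 : (taylor (SS b g) (W₀.map (bdφ r))).coeff 0 =
      SS b g ^ 4 - C (4 * r ^ 6) * X ^ 6 * SS b g := by
    rw [taylor_coeff_zero, W₀]
    simp only [Polynomial.map_sub, Polynomial.map_pow, Polynomial.map_mul, map_X, map_C,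
      eval_sub, eval_pow, eval_mul, eval_X, eval_C]
    congr 2
    simp only [bdφ, coe_compRingHom_apply, mul_comp, pow_comp, X_comp]
    have h4 : (C (4 : ℂ) : ℂ[X]) = 4 := map_ofNat C 4
    rw [← h4, C_comp]
    simp only [map_mul, map_pow]
    ring
  have e2 : SS b g ^ 4 - C (4 * r ^ 6) * X ^ 6 * SS b g =
      C (b ^ 4) * X ^ 4 + C (4 * b ^ 3 * g) * X ^ 5 + C (6 * b ^ 2 * g ^ 2) * X ^ 6 +
        C (4 * b * g ^ 3 - 4 * r ^ 6 * b) * X ^ 7 + C (g ^ 4 - 4 * r ^ 6 * g) * X ^ 8 := by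
    have h4 : (C (4 : ℂ) : ℂ[X]) = 4 := map_ofNat C 4
    have h6 : (C (6 : ℂ) : ℂ[X]) = 6 := map_ofNat C 6
    simp only [SS, map_mul, map_pow, map_sub, h4, h6]
    ring
  rw [e1, e2] at h
  have h4 := h 4 (by norm_num)
  have h8 := h 8 (by norm_num)
  simp only [coeff_add, coeff_C_mul, coeff_X_pow] at h4 h8
  norm_num at h4 h8
  exact ⟨h4, by linear_combination h8⟩

theorem bd (h1 : T_CVT) : T_BD := by
  intro W β γ hW hdiv
  set ρ : ℕ → ℝ := fun n => max 1 (max ‖β n‖ (Real.sqrt ‖γ n‖)) with hρ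
  have hρ1 : ∀ n, 1 ≤ ρ n := fun n => le_max_left _ _
  have hρ0 : ∀ n, 0 < ρ n := fun n => lt_of_lt_of_le one_pos (hρ1 n)
  set r : ℕ → ℝ := fun n => (ρ n)⁻¹ with hr
  have hr0 : ∀ n, 0 < r n := fun n => inv_pos.2 (hρ0 n)
  have hr1 : ∀ n, r n ≤ 1 := fun n => inv_le_one_of_one_le₀ (hρ1 n)
  have hrρ : ∀ n, ρ n * r n = 1 := fun n => mul_inv_cancel₀ (hρ0 n).ne'
  set B : ℕ → ℂ := fun n => β n * (r n : ℂ) with hB
  set G : ℕ → ℂ := fun n => γ n * (r n : ℂ) ^ 2 with hG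
  have nB : ∀ n, ‖B n‖ = ‖β n‖ * r n := fun n => by
    simp only [hB, norm_mul, Complex.norm_real, Real.norm_of_nonneg (hr0 n).le]
  have nG : ∀ n, Real.sqrt ‖G n‖ = Real.sqrt ‖γ n‖ * r n := fun n => by
    simp only [hG, norm_mul, norm_pow, Complex.norm_real, Real.norm_of_nonneg (hr0 n).le]
    rw [Real.sqrt_mul (norm_nonneg _), Real.sqrt_sq (hr0 n).le]
  have hmax : ∀ n, max (r n) (max ‖B n‖ (Real.sqrt ‖G n‖)) = 1 := fun n => by
    rw [nB, nG, ← max_mul_of_nonneg _ _ (hr0 n).le]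
    conv_lhs => enter [1]; rw [← one_mul (r n)]
    rw [← max_mul_of_nonneg _ _ (hr0 n).le]
    exact hrρ n
  have hB1 : ∀ n, ‖B n‖ ≤ 1 := fun n =>
    ((le_max_left _ _).trans (le_max_right _ _)).trans (hmax n).le
  have hG1 : ∀ n, ‖G n‖ ≤ 1 := fun n => by
    have : Real.sqrt ‖G n‖ ≤ 1 := ((le_max_right _ _).trans (le_max_right _ _)).trans (hmax n).le
    rwa [Real.sqrt_le_one] at this
  -- compactness
  have hcomp : IsCompact (Set.Icc (0 : ℝ) 1 ×ˢ (Metric.closedBall (0 : ℂ) 1 ×ˢ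
      Metric.closedBall (0 : ℂ) 1)) :=
    isCompact_Icc.prod ((isCompact_closedBall _ _).prod (isCompact_closedBall _ _))
  obtain ⟨⟨r', b', g'⟩, -, s, hs, hlim⟩ := hcomp.tendsto_subseq
    (x := fun n => (r n, B n, G n)) fun n =>
    ⟨⟨(hr0 n).le, hr1 n⟩, by simpa using hB1 n, by simpa using hG1 n⟩
  have lr : Tendsto (fun n => r (s n)) atTop (𝓝 r') :=
    (continuous_fst.tendsto _).comp hlim
  have lB : Tendsto (fun n => B (s n)) atTop (𝓝 b') :=
    (continuous_fst.tendsto _).comp ((continuous_snd.tendsto _).comp hlim)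
  have lG : Tendsto (fun n => G (s n)) atTop (𝓝 g') :=
    (continuous_snd.tendsto _).comp ((continuous_snd.tendsto _).comp hlim)
  have lrc : Tendsto (fun n => (r (s n) : ℂ)) atTop (𝓝 (r' : ℂ)) :=
    (Complex.continuous_ofReal.tendsto _).comp lr
  have hWs : Conv (fun n => W (s n)) W₀ := by
    obtain ⟨⟨D, hD⟩, hc⟩ := hW
    exact ⟨⟨D, fun n => hD (s n)⟩, fun i j => (hc i j).comp hs.tendsto_atTop⟩
  have key := h1 _ _ _ _ _ _ (bdφ_conv hWs lrc) lB lG
  have hcoef : ∀ k, k < 9 → ∀ n, ((taylor (SS (B (s n)) (G (s n)))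
      ((W (s n)).map (bdφ (r (s n) : ℂ)))).coeff 0).coeff k = 0 := by
    intro k hk n
    have e : (taylor (SS (B (s n)) (G (s n))) ((W (s n)).map (bdφ (r (s n) : ℂ)))).coeff 0 =
        bdφ (r (s n) : ℂ) ((taylor (SS (β (s n)) (γ (s n))) (W (s n))).coeff 0) := by
      rw [taylor_coeff_zero, taylor_coeff_zero, hB, hG, ← bdφ_SS, eval_map, eval₂_at_apply]
    rw [e, bdφ_coeff]
    obtain ⟨q, hq⟩ := hdiv (s n)
    rw [hq, coeff_X_pow_mul', if_neg (by omega), zero_mul]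
  obtain ⟨hb, hg⟩ := bd_limit b' g' r' fun k hk => by
    refine tendsto_nhds_unique (key.2 0 k) ?_
    have : (fun n => ((taylor (SS (B (s n)) (G (s n)))
        ((W (s n)).map (bdφ (r (s n) : ℂ)))).coeff 0).coeff k) = fun _ => 0 := by
      funext n
      exact hcoef k hk n
    rw [this]
    exact tendsto_const_nhds
  -- the limit of the maximum
  have hm : max r' (max ‖b'‖ (Real.sqrt ‖g'‖)) = 1 := by
    have l1 : Tendsto (fun n => max (r (s n)) (max ‖B (s n)‖ (Real.sqrt ‖G (s n)‖))) atTop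
        (𝓝 (max r' (max ‖b'‖ (Real.sqrt ‖g'‖)))) :=
      lr.max (lB.norm.max ((Real.continuous_sqrt.tendsto _).comp lG.norm))
    simp only [hmax] at l1
    exact (tendsto_nhds_unique l1 tendsto_const_nhds)
  have hr' : r' ≠ 0 := by
    intro h0
    rw [h0] at hg hm
    have hg0 : g' = 0 := by
      have : g' ^ 4 = 0 := by rw [hg]; simp
      exact pow_eq_zero_iff (by norm_num) |>.1 this
    rw [hb, hg0] at hm
    simp at hm
  have hrc : (r' : ℂ) ≠ 0 := by exact_mod_cast hr'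
  refine ⟨s, g' / (r' : ℂ) ^ 2, hs, ?_, ?_, ?_⟩
  · have h2 : Tendsto (fun n => B (s n) / (r (s n) : ℂ)) atTop (𝓝 (b' / (r' : ℂ))) :=
      lB.div lrc hrc
    rw [hb, zero_div] at h2
    refine h2.congr fun n => ?_
    have : (r (s n) : ℂ) ≠ 0 := by exact_mod_cast (hr0 (s n)).ne'
    simp only [hB]
    field_simp
  · have h2 : Tendsto (fun n => G (s n) / (r (s n) : ℂ) ^ 2) atTop (𝓝 (g' / (r' : ℂ) ^ 2)) :=
      lG.div (lrc.pow 2) (pow_ne_zero 2 hrc)
    refine h2.congr fun n => ?_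
    have : (r (s n) : ℂ) ≠ 0 := by exact_mod_cast (hr0 (s n)).ne'
    simp only [hG]
    field_simp
  · rw [div_pow, hg]
    field_simp

end Pool.Agent.H15.LU
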