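import Pool.Agent.H15.LU.Targets

/-!
# Module C0: the normal form with `c = 0`
-/

set_option autoImplicit false

namespace Pool.Agent.H15.LU

open Filter Topology Asymptotics Polynomial

theorem c0_poly (k : ℕ) : ∀ P : ℂ[X],
    (fun s : ℂ => P.eval s) =O[𝓝[≠] 0] (fun s : ℂ => s ^ k) → ∀ j, j < k → P.coeff j = 0 := by
  induction k with
  | zero => intro P _ j hj; omega
  | succ k ih =>
    intro P hP
    have h0 : P.coeff 0 = 0 := by
      rw [coeff_zero_eq_eval_zero]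
      have l1 : Tendsto (fun s : ℂ => P.eval s) (𝓝[≠] 0) (𝓝 (P.eval 0)) :=
        (P.continuous.tendsto 0).mono_left nhdsWithin_le_nhds
      have l2 : Tendsto (fun s : ℂ => s ^ (k + 1)) (𝓝[≠] 0) (𝓝 0) := by
        have := (continuous_pow (M := ℂ) (k + 1)).tendsto 0
        simp only [ne_eq, Nat.add_eq_zero_iff, one_ne_zero, and_false, not_false_eq_true,
          zero_pow] at this
        exact this.mono_left nhdsWithin_le_nhds
      exact tendsto_nhds_unique l1 (hP.trans_tendsto l2)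
    have hX : P = P.divX * X := by
      conv_lhs => rw [← divX_mul_X_add P, h0, map_zero, add_zero]
    have h2 : (fun s : ℂ => P.divX.eval s) =O[𝓝[≠] 0] (fun s : ℂ => s ^ k) := by
      have h3 := hP.mul (isBigO_refl (fun s : ℂ => s⁻¹) (𝓝[≠] 0))
      refine h3.congr' ?_ ?_
      · filter_upwards [self_mem_nhdsWithin] with s hs
        have hs' : s ≠ 0 := hs
        conv_lhs => rw [hX]
        rw [eval_mul, eval_X, mul_assoc, mul_inv_cancel₀ hs', mul_one]
      · filter_upwards [self_mem_nhdsWithin] with s hs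
        have hs' : s ≠ 0 := hs
        rw [pow_succ, mul_assoc, mul_inv_cancel₀ hs', mul_one]
    intro j hj
    rcases Nat.eq_zero_or_pos j with rfl | hj0
    · exact h0
    · obtain ⟨i, rfl⟩ := Nat.exists_eq_succ_of_ne_zero hj0.ne'
      have := ih P.divX h2 i (by omega)
      rwa [coeff_divX] at this

theorem c0_mono {f : ℂ → ℂ} {m n : ℕ} (h : n ≤ m)
    (hf : f =O[𝓝[≠] 0] (fun s : ℂ => s ^ m)) : f =O[𝓝[≠] 0] (fun s : ℂ => s ^ n) := by
  refine hf.trans ?_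
  refine IsBigO.mono ?_ nhdsWithin_le_nhds
  obtain ⟨k, rfl⟩ := Nat.exists_eq_add_of_le h
  have h1 : (fun s : ℂ => s ^ k) =O[𝓝 0] (fun _ : ℂ => (1 : ℂ)) :=
    ((continuous_pow k).tendsto (0 : ℂ)).isBigO_one ℂ
  have h2 := (isBigO_refl (fun s : ℂ => s ^ n) (𝓝 0)).mul h1
  simpa only [pow_add, mul_one] using h2

/-- expansion to the first order along a line -/
theorem c0_line (χ : (Fin 3 → ℂ) → Fin 3 → ℂ) (hχ : LDiff χ) (w : Fin 3 → ℂ) (i : Fin 3) :
    (fun s : ℂ => χ (s • w) i - s * fderiv ℂ χ 0 w i) =O[𝓝[≠] 0] (fun s : ℂ => s ^ 2) := by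
  obtain ⟨⟨P, hP⟩, h0, -⟩ := hχ
  have h := hP.isBigO_sub_partialSum_pow 2
  have e : ∀ y, P.partialSum 2 y = fderiv ℂ χ 0 y := fun y => by
    rw [FormalMultilinearSeries.partialSum, Finset.sum_range_succ, Finset.sum_range_one,
      hP.coeff_zero, h0, zero_add, hP.hasFDerivAt.fderiv]
    rfl
  simp only [zero_add, e] at h
  have hs : Tendsto (fun s : ℂ => s • w) (𝓝[≠] 0) (𝓝 0) := by
    have : Tendsto (fun s : ℂ => s • w) (𝓝 0) (𝓝 ((0 : ℂ) • w)) :=
      (continuous_id.smul continuous_const).tendsto 0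
    rw [zero_smul] at this
    exact this.mono_left nhdsWithin_le_nhds
  have h2 := h.comp_tendsto hs
  have h3 : (fun s : ℂ => χ (s • w) i - s * fderiv ℂ χ 0 w i) =O[𝓝[≠] 0]
      ((fun y => χ y - (fderiv ℂ χ 0) y) ∘ fun s : ℂ => s • w) := by
    refine IsBigO.of_bound 1 (Eventually.of_forall fun s => ?_)
    rw [one_mul]
    have := norm_le_pi_norm (χ (s • w) - (fderiv ℂ χ 0) (s • w)) i
    simpa only [Function.comp, Pi.sub_apply, map_smul, Pi.smul_apply, smul_eq_mul] using this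
  refine (h3.trans h2).trans ?_
  refine IsBigO.of_bound (‖w‖ ^ 2) (Eventually.of_forall fun s => ?_)
  simp only [Function.comp, norm_smul, norm_pow, mul_pow, norm_mul, norm_norm]
  rw [mul_comm]

theorem c0_one (a : ℂ) : (fun s : ℂ => s * a) =O[𝓝[≠] 0] (fun s : ℂ => s ^ 1) := by
  refine IsBigO.of_bound ‖a‖ (Eventually.of_forall fun s => ?_)
  rw [norm_mul, pow_one, mul_comm]

theorem c0_add {f g h : ℂ → ℂ} (hf : f =O[𝓝[≠] 0] h) (hg : g =O[𝓝[≠] 0] h) :
    (fun s => f s + g s) =O[𝓝[≠] 0] h := hf.add hg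

theorem c0_mulp {f g : ℂ → ℂ} {m n : ℕ} (hf : f =O[𝓝[≠] 0] (fun s : ℂ => s ^ m))
    (hg : g =O[𝓝[≠] 0] (fun s : ℂ => s ^ n)) :
    (fun s => f s * g s) =O[𝓝[≠] 0] (fun s : ℂ => s ^ (m + n)) := by
  simpa only [pow_add] using hf.mul hg

theorem c0_main (Q R : ℂ[X][X]) (b d : ℂ) (χ : (Fin 3 → ℂ) → Fin 3 → ℂ)
    (h : Dat 0 Q R b d χ) (w : Fin 3 → ℂ) :
    (fun s : ℂ => nf 0 Q R (s • w) - s ^ 2 * fderiv ℂ χ 0 w 2 ^ 2) =O[𝓝[≠] 0]
      (fun s : ℂ => s ^ 3) ∧
    (fderiv ℂ χ 0 w 2 = 0 →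
      (fun s : ℂ => nf 0 Q R (s • w) - s ^ 3 * fderiv ℂ χ 0 w 0 ^ 3) =O[𝓝[≠] 0]
        (fun s : ℂ => s ^ 4)) := by
  obtain ⟨hχ, hO⟩ := h
  set x1 := fderiv ℂ χ 0 w 0 with hx1
  set z1 := fderiv ℂ χ 0 w 2 with hz1
  have hl := c0_line χ hχ w
  -- first order
  have hfirst : ∀ i, (fun s : ℂ => χ (s • w) i) =O[𝓝[≠] 0] (fun s : ℂ => s ^ 1) := fun i => by
    have h1 := c0_add (c0_mono (show 1 ≤ 2 by norm_num) (hl i)) (c0_one (fderiv ℂ χ 0 w i))
    simpa only [sub_add_cancel] using h1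
  have hs : Tendsto (fun s : ℂ => s • w) (𝓝[≠] 0) (𝓝 0) := by
    have : Tendsto (fun s : ℂ => s • w) (𝓝 0) (𝓝 ((0 : ℂ) • w)) :=
      (continuous_id.smul continuous_const).tendsto 0
    rw [zero_smul] at this
    exact this.mono_left nhdsWithin_le_nhds
  have hD : (fun s : ℂ => nf 0 Q R (s • w) - G30 b d (χ (s • w))) =O[𝓝[≠] 0]
      (fun s : ℂ => s ^ 10) := by
    refine (hO.comp_tendsto hs).trans ?_
    refine IsBigO.of_bound (‖w‖ ^ 10) (Eventually.of_forall fun s => ?_)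
    simp only [Function.comp, norm_smul, norm_pow, mul_pow, norm_mul, norm_norm]
    rw [mul_comm]
  have X1 := hfirst 0
  have Y1 := hfirst 1
  have Z1 := hfirst 2
  have X2 := c0_mulp X1 X1
  have Y2 := c0_mulp Y1 Y1
  have Y3 := c0_mulp Y2 Y1
  have Y7 := c0_mulp (c0_mulp Y3 Y3) Y1
  -- the remainder
  have hrest : (fun s : ℂ => G30 b d (χ (s • w)) - (χ (s • w) 0 ^ 3 + χ (s • w) 2 ^ 2)) =O[𝓝[≠] 0]
      (fun s : ℂ => s ^ 4) := by
    have r1 := (c0_mono (show 4 ≤ 1 + 1 + (1 + 1 + 1) by norm_num) (c0_mulp X2 Y3)).const_mul_left b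
    have r2 := c0_mono (show 4 ≤ 1 + 1 + 1 + (1 + 1 + 1) + 1 + (1 + 1) by norm_num)
      (c0_mulp Y7 Y2)
    have r3 := (c0_mono (show 4 ≤ 1 + (1 + 1 + 1 + (1 + 1 + 1) + 1) by norm_num)
      (c0_mulp X1 Y7)).const_mul_left d
    refine (c0_add (c0_add r1 r2) r3).congr_left fun s => ?_
    simp only [G30]
    ring
  refine ⟨?_, fun hz => ?_⟩
  · have a1 : (fun s : ℂ => χ (s • w) 0 ^ 3) =O[𝓝[≠] 0] (fun s : ℂ => s ^ 3) := by
      refine (c0_mulp X2 X1).congr_left fun s => ?_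
      ring
    have a2 : (fun s : ℂ => χ (s • w) 2 ^ 2 - s ^ 2 * z1 ^ 2) =O[𝓝[≠] 0] (fun s : ℂ => s ^ 3) := by
      refine (c0_mulp (hl 2) (c0_add Z1 (c0_one z1))).congr_left fun s => ?_
      rw [← hz1]
      ring
    refine (c0_add (c0_add (c0_mono (show 3 ≤ 10 by norm_num) hD)
      (c0_mono (show 3 ≤ 4 by norm_num) hrest)) (c0_add a1 a2)).congr_left fun s => ?_
    ring
  · have a2 : (fun s : ℂ => χ (s • w) 2 ^ 2) =O[𝓝[≠] 0] (fun s : ℂ => s ^ 4) := by
      have z2 := hl 2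
      rw [← hz1, hz] at z2
      refine (c0_mulp z2 z2).congr_left fun s => ?_
      ring
    have a1 : (fun s : ℂ => χ (s • w) 0 ^ 3 - s ^ 3 * x1 ^ 3) =O[𝓝[≠] 0] (fun s : ℂ => s ^ 4) := by
      have q := c0_add (c0_add X2 (c0_mulp (c0_one x1) X1)) (c0_mulp (c0_one x1) (c0_one x1))
      refine (c0_mulp (hl 0) q).congr_left fun s => ?_
      rw [← hx1]
      ring
    refine (c0_add (c0_add (c0_mono (show 4 ≤ 10 by norm_num) hD) hrest)
      (c0_add a1 a2)).congr_left fun s => ?_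
    ring

theorem c0 : T_C0 := by
  intro Q R b d χ h
  have hm := c0_main Q R b d χ h
  obtain ⟨⟨-, -, -, hsurj⟩, -⟩ := h
  set A := fderiv ℂ χ 0 with hA
  set e : Fin 3 → ℂ := ![0, 0, 1] with he
  -- step 1
  have he2 : A e 2 = 0 := by
    have h1 := (hm e).1
    have h2 : (fun s : ℂ => (C (Q.evalEval 0 0) * X + C (R.evalEval 0 0) -
        C (A e 2 ^ 2) * X ^ 2 : ℂ[X]).eval s) =O[𝓝[≠] 0] (fun s : ℂ => s ^ 3) := by
      refine h1.congr_left fun s => ?_
      simp [nf, he]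
      ring
    have h3 := c0_poly 3 _ h2 2 (by norm_num)
    rw [coeff_sub, coeff_add, coeff_C_mul, coeff_C_mul, coeff_X_pow_self, coeff_X, coeff_C,
      if_neg (by norm_num), if_neg (by norm_num)] at h3
    have h4 : A e 2 ^ 2 = 0 := by linear_combination -h3
    exact (pow_eq_zero_iff (by norm_num)).1 h4
  set l0 := A ![1, 0, 0] 2 with hl0
  set l1 := A ![0, 1, 0] 2 with hl1
  set v : Fin 3 → ℂ := ![-l1, l0, 0] with hv
  have hdec : ∀ x y z : ℂ, ![x, y, z] = x • (![1, 0, 0] : Fin 3 → ℂ) + y • ![0, 1, 0] + z • e := by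
    intro x y z
    funext i
    fin_cases i <;> simp [he]
  have hAd : ∀ x y z : ℂ, A ![x, y, z] 2 = x * l0 + y * l1 := by
    intro x y z
    rw [hdec, map_add, map_add, map_smul, map_smul, map_smul]
    simp only [Pi.add_apply, Pi.smul_apply, smul_eq_mul, he2, mul_zero, add_zero, ← hl0, ← hl1]
  set α := A v 0 with hα
  set β := A e 0 with hβ
  have hAw : ∀ ζ : ℂ, A ![-l1, l0, ζ] 0 = α + ζ * β := by
    intro ζ
    have : (![-l1, l0, ζ] : Fin 3 → ℂ) = v + ζ • e := by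
      funext i
      fin_cases i <;> simp [he, hv]
    rw [this, map_add, map_smul]
    simp only [Pi.add_apply, Pi.smul_apply, smul_eq_mul, ← hα, ← hβ]
  have hF : ∀ ζ : ℂ, (fun s : ℂ => s ^ 3 * (l0 * ζ ^ 2) +
      s * ζ * Q.evalEval (s * l0) (s * -l1) + R.evalEval (s * l0) (s * -l1) -
      s ^ 3 * (α + ζ * β) ^ 3) =O[𝓝[≠] 0] (fun s : ℂ => s ^ 4) := by
    intro ζ
    have h1 := (hm ![-l1, l0, ζ]).2 (by rw [hAd]; ring)
    refine h1.congr_left fun s => ?_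
    rw [hAw]
    simp only [nf, Pi.smul_apply, smul_eq_mul, Matrix.cons_val_zero, Matrix.cons_val_one,
      Matrix.cons_val]
    ring
  have F0 := hF 0
  have F1 := hF 1
  have F2 := hF (-1)
  have F3 := hF 2
  -- cubic coefficient
  have hβ0 : β = 0 := by
    have h1 := ((((F3.sub (F1.const_mul_left 3)).add (F0.const_mul_left 3)).sub F2))
    have h2 : (fun s : ℂ => (C (-(6 * β ^ 3)) * X ^ 3 : ℂ[X]).eval s) =O[𝓝[≠] 0]
        (fun s : ℂ => s ^ 4) := by
      refine h1.congr_left fun s => ?_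
      simp only [eval_mul, eval_C, eval_pow, eval_X]
      ring
    have h3 := c0_poly 4 _ h2 3 (by norm_num)
    rw [coeff_C_mul, coeff_X_pow_self] at h3
    have h4 : β ^ 3 = 0 := by linear_combination (-1 / 6 : ℂ) * h3
    exact (pow_eq_zero_iff (by norm_num)).1 h4
  have hl00 : l0 = 0 := by
    have h1 := (F1.add F2).sub (F0.const_mul_left 2)
    have h2 : (fun s : ℂ => (C (2 * l0) * X ^ 3 : ℂ[X]).eval s) =O[𝓝[≠] 0]
        (fun s : ℂ => s ^ 4) := by
      refine h1.congr_left fun s => ?_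
      simp only [eval_mul, eval_C, eval_pow, eval_X, hβ0]
      ring
    have h3 := c0_poly 4 _ h2 3 (by norm_num)
    rw [coeff_C_mul, coeff_X_pow_self] at h3
    linear_combination (1 / 2 : ℂ) * h3
  have hl10 : l1 ≠ 0 := by
    intro h0
    obtain ⟨w, hw⟩ := hsurj e
    have h1 : A w 2 = 1 := by
      rw [hw]
      simp [he]
    have h2 : (w : Fin 3 → ℂ) = ![w 0, w 1, w 2] := by
      funext i
      fin_cases i <;> rfl
    rw [h2, hAd, hl00, h0] at h1
    simp at h1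
  have h1 := F1.sub F2
  have h2 : (fun s : ℂ => (C 2 * (((Q.map (evalRingHom 0)).comp (C (-l1) * X)) * X) : ℂ[X]).eval
      s) =O[𝓝[≠] 0] (fun s : ℂ => s ^ 4) := by
    refine h1.congr_left fun s => ?_
    simp only [eval_mul, eval_C, eval_X, eval_comp, map_evalRingHom_eval, hβ0, hl00, mul_zero]
    rw [mul_comm (-l1) s]
    ring
  have h3 := c0_poly 4 _ h2 3 (by norm_num)
  rw [coeff_C_mul, coeff_mul_X, comp_C_mul_X_coeff, coeff_map, coe_evalRingHom,
    ← coeff_zero_eq_eval_zero] at h3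
  have h4 : (Q.coeff 2).coeff 0 * l1 ^ 2 = 0 := by linear_combination (1 / 2 : ℂ) * h3
  exact (mul_eq_zero.1 h4).resolve_right (pow_ne_zero 2 hl10)

end Pool.Agent.H15.LU
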