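import Pool.Agent.H15.LU.Targets

/-!
# Module CVT: convergence of polynomials is preserved by Taylor shifts
-/

set_option autoImplicit false

namespace Pool.Agent.H15.LU

open Filter Topology Asymptotics Polynomial

theorem cvt_const (W : ℂ[X][X]) : Conv (fun _ => W) W := by
  refine ⟨⟨W.natDegree + ∑ i ∈ Finset.range (W.natDegree + 1), (W.coeff i).natDegree, ?_⟩,
    fun i j => tendsto_const_nhds⟩
  intro n i j h
  show (W.coeff i).coeff j = 0
  rcases h with h | h
  · have h0 : W.coeff i = 0 := coeff_eq_zero_of_natDegree_lt (by omega)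
    simp only [h0, coeff_zero]
  · by_cases hi : i ≤ W.natDegree
    · have h1 : (W.coeff i).natDegree ≤
          ∑ i ∈ Finset.range (W.natDegree + 1), (W.coeff i).natDegree :=
        Finset.single_le_sum (f := fun i => (W.coeff i).natDegree)
          (fun _ _ => Nat.zero_le _) (Finset.mem_range.2 (Nat.lt_succ_of_le hi))
      exact coeff_eq_zero_of_natDegree_lt (by omega)
    · have h0 : W.coeff i = 0 := coeff_eq_zero_of_natDegree_lt (by omega)
      simp only [h0, coeff_zero]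

theorem cvt_add {W U : ℕ → ℂ[X][X]} {W' U' : ℂ[X][X]} (h1 : Conv W W') (h2 : Conv U U') :
    Conv (fun n => W n + U n) (W' + U') := by
  obtain ⟨⟨D1, hD1⟩, hW⟩ := h1
  obtain ⟨⟨D2, hD2⟩, hU⟩ := h2
  refine ⟨⟨D1 + D2, fun n i j h => ?_⟩, fun i j => ?_⟩
  · rw [coeff_add, coeff_add, hD1 n i j (by omega), hD2 n i j (by omega), add_zero]
  · simp only [coeff_add]
    exact (hW i j).add (hU i j)

theorem cvt_coeff_mul (W U : ℂ[X][X]) (i j : ℕ) : ((W * U).coeff i).coeff j =
    ∑ p ∈ Finset.HasAntidiagonal.antidiagonal i, ∑ q ∈ Finset.HasAntidiagonal.antidiagonal j,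
      (W.coeff p.1).coeff q.1 * (U.coeff p.2).coeff q.2 := by
  rw [coeff_mul, finsetSum_coeff]
  refine Finset.sum_congr rfl fun p _ => ?_
  rw [coeff_mul]

theorem cvt_mul {W U : ℕ → ℂ[X][X]} {W' U' : ℂ[X][X]} (h1 : Conv W W') (h2 : Conv U U') :
    Conv (fun n => W n * U n) (W' * U') := by
  obtain ⟨⟨D1, hD1⟩, hW⟩ := h1
  obtain ⟨⟨D2, hD2⟩, hU⟩ := h2
  refine ⟨⟨D1 + D2, fun n i j h => ?_⟩, fun i j => ?_⟩
  · rw [cvt_coeff_mul]
    refine Finset.sum_eq_zero fun p hp => Finset.sum_eq_zero fun q hq => ?_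
    rw [Finset.HasAntidiagonal.mem_antidiagonal] at hp hq
    by_cases h' : D1 < p.1 ∨ D1 < q.1
    · rw [hD1 n _ _ h', zero_mul]
    · rw [hD2 n p.2 q.2 (by omega), mul_zero]
  · simp only [cvt_coeff_mul]
    exact tendsto_finsetSum _ fun p _ => tendsto_finsetSum _ fun q _ =>
      (hW _ _).mul (hU _ _)

theorem cvt_pow {W : ℕ → ℂ[X][X]} {W' : ℂ[X][X]} (h1 : Conv W W') (k : ℕ) :
    Conv (fun n => W n ^ k) (W' ^ k) := by
  induction k with
  | zero => simpa using cvt_const 1
  | succ k ih => simpa only [pow_succ] using cvt_mul ih h1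

theorem cvt_sum {ι : Type} (s : Finset ι) {W : ι → ℕ → ℂ[X][X]} {W' : ι → ℂ[X][X]}
    (h : ∀ i ∈ s, Conv (W i) (W' i)) :
    Conv (fun n => ∑ i ∈ s, W i n) (∑ i ∈ s, W' i) := by
  classical
  induction s using Finset.induction_on with
  | empty => simpa using cvt_const 0
  | insert a s ha ih =>
    simp only [Finset.sum_insert ha]
    exact cvt_add (h a (Finset.mem_insert_self a s))
      (ih fun i hi => h i (Finset.mem_insert_of_mem hi))

theorem cvt_CC {β : ℕ → ℂ} {β' : ℂ} (h : Tendsto β atTop (𝓝 β')) :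
    Conv (fun n => C (C (β n))) (C (C β')) := by
  refine ⟨⟨0, fun n i j hij => ?_⟩, fun i j => ?_⟩
  · rcases hij with hij | hij
    · rw [coeff_C_of_ne_zero (by omega), coeff_zero]
    · rcases Nat.eq_zero_or_pos i with rfl | hi
      · rw [coeff_C_zero, coeff_C_of_ne_zero (by omega)]
      · rw [coeff_C_of_ne_zero (by omega), coeff_zero]
  · rcases Nat.eq_zero_or_pos i with rfl | hi
    · rcases Nat.eq_zero_or_pos j with rfl | hj
      · simpa only [coeff_C_zero] using h
      · simp only [coeff_C_zero, coeff_C_of_ne_zero (show j ≠ 0 by omega)]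
        exact tendsto_const_nhds
    · simp only [coeff_C_of_ne_zero (show i ≠ 0 by omega), coeff_zero]
      exact tendsto_const_nhds

theorem cvt_C {W : ℕ → ℂ[X][X]} {W' : ℂ[X][X]} (h : Conv W W') (k : ℕ) :
    Conv (fun n => C ((W n).coeff k)) (C (W'.coeff k)) := by
  obtain ⟨⟨D, hD⟩, hW⟩ := h
  refine ⟨⟨D, fun n i j hij => ?_⟩, fun i j => ?_⟩
  · rcases Nat.eq_zero_or_pos i with rfl | hi
    · rw [coeff_C_zero, hD n k j (Or.inr (by omega))]
    · rw [coeff_C_of_ne_zero (by omega), coeff_zero]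
  · rcases Nat.eq_zero_or_pos i with rfl | hi
    · simpa only [coeff_C_zero] using hW k j
    · simp only [coeff_C_of_ne_zero (show i ≠ 0 by omega), coeff_zero]
      exact tendsto_const_nhds

theorem cvt_taylor_eq (W : ℂ[X][X]) (S : ℂ[X]) (D : ℕ) (h : ∀ i, D < i → W.coeff i = 0) :
    taylor S W = ∑ i ∈ Finset.range (D + 1), C (W.coeff i) * (X + C S) ^ i := by
  have hd : W.natDegree < D + 1 := by
    refine Nat.lt_succ_of_le ?_
    rw [natDegree_le_iff_coeff_eq_zero]
    exact h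
  conv_lhs => rw [taylor_apply, comp, eval₂_eq_sum_range' C hd]

theorem cvt : T_CVT := by
  intro W W' β γ β' γ' h hβ hγ
  obtain ⟨⟨D, hD⟩, hW⟩ := h
  have hz : ∀ n i, D < i → (W n).coeff i = 0 := fun n i hi => by
    ext j
    rw [hD n i j (Or.inl hi), coeff_zero]
  have hz' : ∀ i, D < i → W'.coeff i = 0 := fun i hi => by
    ext j
    rw [coeff_zero]
    refine tendsto_nhds_unique (hW i j) ?_
    have : (fun n => ((W n).coeff i).coeff j) = fun _ => 0 := by
      funext n
      rw [hD n i j (Or.inl hi)]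
    rw [this]
    exact tendsto_const_nhds
  have hS : Conv (fun n => X + C (SS (β n) (γ n))) (X + C (SS β' γ')) := by
    refine cvt_add (cvt_const X) ?_
    have h1 := cvt_add (cvt_mul (cvt_CC hβ) (cvt_const (C X)))
      (cvt_mul (cvt_CC hγ) (cvt_const (C (X ^ 2))))
    simpa only [SS, map_add, map_mul] using h1
  simp only [fun n => cvt_taylor_eq (W n) (SS (β n) (γ n)) D (hz n),
    cvt_taylor_eq W' (SS β' γ') D hz']
  exact cvt_sum _ fun i _ => cvt_mul (cvt_C ⟨⟨D, hD⟩, hW⟩ i) (cvt_pow hS i)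

end Pool.Agent.H15.LU
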