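import Pool.Agent.H15.LU.Targets

/-!
# Module JTN: adjacency to J10
-/

set_option autoImplicit false

namespace Pool.Agent.H15.LU

open Filter Topology Asymptotics Polynomial

/-- the deformation -/
def jtnF (q : (Fin 3 → ℂ) × (Fin 1 → ℂ)) : ℂ :=
  (q.1 1 + q.2 0) * q.1 2 ^ 2 + q.1 0 ^ 2 * q.1 2 + q.2 0 * q.1 0 ^ 3 +
    q.1 0 * q.1 1 ^ 4 * (q.2 0 + q.1 1)

theorem jtn_an1 (i : Fin 3) (x : (Fin 3 → ℂ) × (Fin 1 → ℂ)) :
    AnalyticAt ℂ (fun q : (Fin 3 → ℂ) × (Fin 1 → ℂ) => q.1 i) x :=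
  ((ContinuousLinearMap.proj (R := ℂ) (φ := fun _ : Fin 3 => ℂ) i).comp
    (ContinuousLinearMap.fst ℂ (Fin 3 → ℂ) (Fin 1 → ℂ))).analyticAt x

theorem jtn_an2 (i : Fin 1) (x : (Fin 3 → ℂ) × (Fin 1 → ℂ)) :
    AnalyticAt ℂ (fun q : (Fin 3 → ℂ) × (Fin 1 → ℂ) => q.2 i) x :=
  ((ContinuousLinearMap.proj (R := ℂ) (φ := fun _ : Fin 1 => ℂ) i).comp
    (ContinuousLinearMap.snd ℂ (Fin 3 → ℂ) (Fin 1 → ℂ))).analyticAt x

theorem jtn_F_an : AnalyticAt ℂ jtnF 0 := by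
  have a0 := jtn_an1 0 0
  have a1 := jtn_an1 1 0
  have a2 := jtn_an1 2 0
  have b0 := jtn_an2 0 0
  exact ((((a1.add b0).mul (a2.pow 2)).add ((a0.pow 2).mul a2)).add (b0.mul (a0.pow 3))).add
    ((a0.mul (a1.pow 4)).mul (b0.add a1))

theorem jtn_an (i : Fin 3) (x : Fin 3 → ℂ) : AnalyticAt ℂ (fun p : Fin 3 → ℂ => p i) x :=
  (ContinuousLinearMap.proj (R := ℂ) (φ := fun _ : Fin 3 => ℂ) i).analyticAt x

theorem jtn_pr (i : Fin 3) (x : Fin 3 → ℂ) : HasFDerivAt (fun p : Fin 3 → ℂ => p i)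
    (ContinuousLinearMap.proj (R := ℂ) (φ := fun _ : Fin 3 => ℂ) i) x :=
  (ContinuousLinearMap.proj (R := ℂ) (φ := fun _ : Fin 3 => ℂ) i).hasFDerivAt

/-- product of a function vanishing at `0` and a differentiable function -/
theorem jtn_mul {f g : (Fin 3 → ℂ) → ℂ} {f' : (Fin 3 → ℂ) →L[ℂ] ℂ} (hf : HasFDerivAt f f' 0)
    (h0 : f 0 = 0) (hg : AnalyticAt ℂ g 0) : HasFDerivAt (fun p => f p * g p) (g 0 • f') 0 := by
  refine (hf.mul hg.differentiableAt.hasFDerivAt).congr_fderiv ?_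
  ext v
  simp [h0]

theorem jtn (h1 : T_JAN) (h2 : T_JKM) : T_J10 := by
  obtain ⟨κ, μ, b, hμ, hb, hid⟩ := h2
  refine ⟨1, jtnF, jtn_F_an, Eventually.of_forall fun x => ?_, fun ε hε => ?_⟩
  · simp only [jtnF, f₀, Pi.zero_apply]
    ring
  set t : ℂ := ((ε / 2 : ℝ) : ℂ) with ht
  have ht0 : t ≠ 0 := by
    rw [ht]
    exact_mod_cast (by positivity : (ε / 2 : ℝ) ≠ 0)
  obtain ⟨G, H, S, hG, hH, hS, hG0, hH0, hS0, hev⟩ := h1 t ht0
  refine ⟨fun _ => t, ?_, ?_, fun p => p 0 ^ 3 + b * p 0 ^ 2 * p 1 ^ 2 + p 1 ^ 6 +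
    ∑ i : Fin 1, p i.succ.succ ^ 2, ⟨b, hb, rfl⟩, ?_⟩
  · intro h
    exact ht0 (congrFun h 0)
  · rw [pi_norm_const, ht, Complex.norm_real, Real.norm_of_nonneg (by positivity)]
    linarith
  set X : (Fin 3 → ℂ) → ℂ := fun p => p 0 * G p with hX
  set Y : (Fin 3 → ℂ) → ℂ := fun p => p 1 * H p with hY
  set u : (Fin 3 → ℂ) → ℂ := fun p => p 2 + p 0 * (p 0 / (2 * (p 1 + t))) with hu
  set Z : (Fin 3 → ℂ) → ℂ := fun p => u p * S p with hZ
  have haX : AnalyticAt ℂ X 0 := (jtn_an 0 0).mul hG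
  have haY : AnalyticAt ℂ Y 0 := (jtn_an 1 0).mul hH
  have hv : AnalyticAt ℂ (fun p : Fin 3 → ℂ => p 0 / (2 * (p 1 + t))) 0 :=
    (jtn_an 0 0).div (analyticAt_const.mul ((jtn_an 1 0).add analyticAt_const)) (by simpa using ht0)
  have hau : AnalyticAt ℂ u 0 := (jtn_an 2 0).add ((jtn_an 0 0).mul hv)
  have haZ : AnalyticAt ℂ Z 0 := hau.mul hS
  have dX : HasFDerivAt X (G 0 • ContinuousLinearMap.proj (R := ℂ) (φ := fun _ : Fin 3 => ℂ) 0) 0 :=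
    jtn_mul (jtn_pr 0 0) rfl hG
  have dY : HasFDerivAt Y (H 0 • ContinuousLinearMap.proj (R := ℂ) (φ := fun _ : Fin 3 => ℂ) 1) 0 :=
    jtn_mul (jtn_pr 1 0) rfl hH
  have dYY : HasFDerivAt (fun p => Y p * Y p) (0 : (Fin 3 → ℂ) →L[ℂ] ℂ) 0 := by
    have h0 : Y 0 = 0 := by simp [hY]
    refine (jtn_mul dY h0 haY).congr_fderiv ?_
    ext v
    simp [h0]
  have du : HasFDerivAt u (ContinuousLinearMap.proj (R := ℂ) (φ := fun _ : Fin 3 => ℂ) 2) 0 := by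
    refine ((jtn_pr 2 0).add (jtn_mul (jtn_pr 0 0) rfl hv)).congr_fderiv ?_
    ext v
    simp
  have dZ : HasFDerivAt Z (S 0 • ContinuousLinearMap.proj (R := ℂ) (φ := fun _ : Fin 3 => ℂ) 2) 0 :=
    jtn_mul du (by simp [hu]) hS
  have dX' : HasFDerivAt (fun p => X p - κ * (Y p * Y p))
      (G 0 • ContinuousLinearMap.proj (R := ℂ) (φ := fun _ : Fin 3 => ℂ) 0) 0 := by
    refine (dX.sub (dYY.const_mul κ)).congr_fderiv ?_
    ext v
    simp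
  set φ : (Fin 3 → ℂ) → Fin 3 → ℂ := fun p => ![X p - κ * (Y p * Y p), μ * Y p, Z p] with hφ
  have hφa : AnalyticAt ℂ φ 0 := by
    rw [analyticAt_pi_iff]
    intro i
    fin_cases i
    · exact haX.sub (analyticAt_const.mul (haY.mul haY))
    · exact analyticAt_const.mul haY
    · exact haZ
  set L : (Fin 3 → ℂ) →L[ℂ] (Fin 3 → ℂ) := ContinuousLinearMap.pi fun i =>
    (![G 0, μ * H 0, S 0] i) • ContinuousLinearMap.proj (R := ℂ) (φ := fun _ : Fin 3 => ℂ) i with hL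
  have dφ : HasFDerivAt φ L 0 := by
    rw [hasFDerivAt_pi']
    intro i
    fin_cases i
    · exact dX'
    · have h := dY.const_mul μ
      rw [smul_smul] at h
      exact h
    · exact dZ
  have hLi : Function.Injective L := by
    rw [injective_iff_map_eq_zero]
    intro v hv0
    have hi : ∀ i : Fin 3, ![G 0, μ * H 0, S 0] i * v i = 0 := fun i => congrFun hv0 i
    funext i
    have h3 : ![G 0, μ * H 0, S 0] i ≠ 0 := by
      fin_cases i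
      · exact hG0
      · exact mul_ne_zero hμ hH0
      · exact hS0
    exact (mul_eq_zero.1 (hi i)).resolve_left h3
  refine ⟨φ, hφa, ?_, ?_, ?_⟩
  · funext i
    fin_cases i <;> simp [hφ, hX, hY, hZ, hu]
  · rw [dφ.fderiv]
    refine ⟨hLi, ?_⟩
    exact (LinearMap.injective_iff_surjective (f := (L : (Fin 3 → ℂ) →ₗ[ℂ] (Fin 3 → ℂ)))).1 hLi
  · filter_upwards [hev] with p hp
    obtain ⟨hp1, hGp, hG3, hH4, hS2⟩ := hp
    have hXY := hid (X p) (Y p)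
    have e1 : X p ^ 3 = p 0 ^ 3 * (t - p 0 / (4 * (p 1 + t))) := by
      rw [hX, ← hG3]; ring
    have e2 : X p * Y p ^ 4 = p 0 * p 1 ^ 4 * (p 1 + t) := by
      rw [hX, hY]
      simp only [mul_pow]
      rw [hH4]
      field_simp
    have e3 : Z p ^ 2 = (p 1 + t) * p 2 ^ 2 + p 0 ^ 2 * p 2 + p 0 ^ 4 / (4 * (p 1 + t)) := by
      rw [hZ]
      simp only [mul_pow]
      rw [hS2, hu]
      field_simp
      ring
    show jtnF (p, fun _ => t) = φ p 0 ^ 3 + b * φ p 0 ^ 2 * φ p 1 ^ 2 + φ p 1 ^ 6 +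
      ∑ i : Fin 1, φ p i.succ.succ ^ 2
    have e4 : ∑ i : Fin 1, φ p i.succ.succ ^ 2 = Z p ^ 2 := by
      simp [hφ]
    have e5 : φ p 0 = X p - κ * Y p ^ 2 := by
      simp only [hφ, Matrix.cons_val_zero]; ring
    have e6 : φ p 1 = μ * Y p := by simp [hφ]
    rw [e4, e5, e6, ← hXY, e1, e2, e3]
    simp only [jtnF]
    field_simp
    ring

end Pool.Agent.H15.LU
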